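import Mathlib

set_option autoImplicit false

/-!
# The key identity

In a commutative domain of characteristic `p = 2 g + 5` with a derivation `d`, if `u''' = 0` and
`v'' = 0` then `(u'^2 - 2 u u'')^(g+1) (u' v' - u'' v)` is a third derivative.
-/

namespace Pool.H67.ENG

open Polynomial

variable {F : Type*} [Field F] {N : Type*} [CommRing N] [Algebra F N] (d : Derivation F N N)

/-- all coefficients are constants -/
def CC (f : N[X]) : Prop := ∀ n, d (f.coeff n) = 0

lemma d_eval {f : N[X]} (hf : CC d f) (s : N) :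
    d (eval s f) = d s * eval s (derivative f) := by
  rw [derivative_eval, eval_eq_sum, sum_def, sum_def, map_sum, Finset.mul_sum]
  refine Finset.sum_congr rfl fun i _ => ?_
  rw [Derivation.leibniz, hf i, smul_zero, add_zero, Derivation.leibniz_pow]
  simp only [smul_eq_mul, nsmul_eq_mul]
  ring

lemma cc_derivative {f : N[X]} (hf : CC d f) : CC d (derivative f) := by
  intro n
  rw [coeff_derivative, Derivation.leibniz, hf (n + 1)]
  have h1 : d ((n : N) + 1) = 0 := by
    rw [map_add, d.map_one_eq_zero, d.map_natCast, add_zero]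
  rw [h1]; simp

lemma d_iter_eval {s c : N} (hs : d s = c) (hc : d c = 0) (j : ℕ) :
    ∀ {f : N[X]}, CC d f → (d : N → N)^[j] (eval s f) = c ^ j * eval s (derivative^[j] f) := by
  induction j with
  | zero => intro f _; simp
  | succ j ih =>
    intro f hf
    have hcj : d (c ^ j) = 0 := by rw [Derivation.leibniz_pow, hc]; simp
    rw [Function.iterate_succ', Function.comp_apply, ih hf, Derivation.leibniz, hcj]
    have hcf : CC d (derivative^[j] f) := by
      clear ih hcj
      induction j with
      | zero => exact hf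
      | succ j ih => rw [Function.iterate_succ', Function.comp_apply]; exact cc_derivative d ih
    rw [d_eval d hcf, hs, Function.iterate_succ', Function.comp_apply]
    simp only [smul_eq_mul, mul_zero, add_zero]
    ring

lemma d_iter_const_mul {a : N} (ha : d a = 0) (j : ℕ) (x : N) :
    (d : N → N)^[j] (a * x) = a * (d : N → N)^[j] x := by
  induction j with
  | zero => rfl
  | succ j ih =>
    rw [Function.iterate_succ', Function.comp_apply, Function.comp_apply, ih,
      Derivation.leibniz, ha]
    simp

lemma top_derivative {p : ℕ} [hp : Fact p.Prime] [CharP N p] {f : N[X]}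
    (hf : f.natDegree ≤ 2 * p - 2) :
    derivative^[p - 1] f = C (((p - 1).factorial : N) * f.coeff (p - 1)) := by
  have hp1 : 1 ≤ p := hp.out.one_lt.le
  ext m
  rw [coeff_iterate_derivative, coeff_C]
  split_ifs with hm
  · subst hm
    rw [zero_add, Nat.descFactorial_self, nsmul_eq_mul]
  · by_cases hm2 : m < p
    · have hdvd : p ∣ (m + (p - 1)).descFactorial (p - 1) := by
        rw [Nat.descFactorial_eq_factorial_mul_choose]
        apply Dvd.dvd.mul_left
        rw [Nat.add_comm m (p - 1)]
        exact hp.out.dvd_choose_add (a := p - 1) (b := m) (by omega) hm2 (by omega)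
      obtain ⟨q, hq⟩ := hdvd
      rw [hq, nsmul_eq_mul, Nat.cast_mul, CharP.cast_eq_zero, zero_mul, zero_mul]
    · rw [coeff_eq_zero_of_natDegree_lt (by omega), smul_zero]

lemma coeff_special (k a b : N) (g : ℕ) :
    ((X ^ 2 - C k) ^ (2 * g + 3) * (C a * X - C b) : N[X]).coeff (2 * g + 4) =
      -b * ((-k) ^ (g + 1) * ((2 * g + 3).choose (g + 2) : N)) := by
  have hG : ((X ^ 2 - C k) ^ (2 * g + 3) : N[X]) = expand N 2 ((X - C k) ^ (2 * g + 3)) := by
    rw [map_pow, map_sub, expand_X, expand_C]
  rw [hG, mul_sub, coeff_sub, ← mul_assoc, coeff_mul_X, coeff_mul_C, coeff_mul_C,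
    coeff_expand (by norm_num), coeff_expand (by norm_num)]
  have h1 : ¬ (2 ∣ 2 * g + 3) := by omega
  have h2 : (2 ∣ 2 * g + 4) := by omega
  rw [if_neg h1, if_pos h2]
  have h3 : (2 * g + 4) / 2 = g + 2 := by omega
  rw [h3, show (X - C k : N[X]) = X + C (-k) by rw [C_neg, sub_eq_add_neg], coeff_X_add_C_pow]
  have h4 : 2 * g + 3 - (g + 2) = g + 1 := by omega
  rw [h4]
  ring

lemma natDegree_special (k a b : N) (g : ℕ) :
    ((X ^ 2 - C k) ^ (2 * g + 3) * (C a * X - C b) : N[X]).natDegree ≤ 4 * g + 7 := by
  refine (natDegree_mul_le).trans ?_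
  have h1 : ((X ^ 2 - C k) ^ (2 * g + 3) : N[X]).natDegree ≤ (2 * g + 3) * 2 := by
    refine (natDegree_pow_le).trans ?_
    apply Nat.mul_le_mul_left
    refine (natDegree_sub_le _ _).trans ?_
    simp only [natDegree_C, max_le_iff, zero_le, and_true]
    exact natDegree_X_pow_le 2
  have h2 : ((C a * X - C b) : N[X]).natDegree ≤ 1 := by
    refine (natDegree_sub_le _ _).trans ?_
    simp only [natDegree_C, max_le_iff, zero_le, and_true]
    simpa using natDegree_C_mul_X_pow_le a 1
  omega

lemma cc_special {k a b : N} (hk : d k = 0) (ha : d a = 0) (hb : d b = 0) (M : ℕ) :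
    CC d ((X ^ 2 - C k) ^ M * (C a * X - C b) : N[X]) := by
  have hmul : ∀ {f g : N[X]}, CC d f → CC d g → CC d (f * g) := by
    intro f g hf hg n
    rw [coeff_mul, map_sum]
    refine Finset.sum_eq_zero fun x _ => ?_
    rw [Derivation.leibniz, hf, hg]; simp
  have hsub : ∀ {f g : N[X]}, CC d f → CC d g → CC d (f - g) := by
    intro f g hf hg n
    rw [coeff_sub, map_sub, hf, hg, sub_zero]
  have hC : ∀ {a : N}, d a = 0 → CC d (C a) := by
    intro a ha n
    rw [coeff_C]; split_ifs <;> simp [ha]
  have hX : CC d (X : N[X]) := by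
    intro n
    rw [coeff_X]; split_ifs <;> simp [d.map_one_eq_zero]
  have hpow : ∀ {f : N[X]} (m : ℕ), CC d f → CC d (f ^ m) := by
    intro f m hf
    induction m with
    | zero =>
      rw [pow_zero, ← C_1]; exact hC d.map_one_eq_zero
    | succ m ih => rw [pow_succ]; exact hmul ih hf
  exact hmul (hpow M (hsub (hpow 2 hX) (hC hk))) (hsub (hmul (hC ha) hX) (hC hb))

theorem ki [IsDomain N] {p : ℕ} [hp : Fact p.Prime] [CharP F p] {g : ℕ} (hg : p = 2 * g + 5)
    {u v : N} (hu : d (d (d u)) = 0) (hv : d (d v) = 0) :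
    ∃ z : N, d (d (d z)) =
      (d u ^ 2 - 2 * u * d (d u)) ^ (g + 1) * (d u * d v - d (d u) * v) := by
  have : CharP N p := charP_of_injective_algebraMap (algebraMap F N).injective p
  by_cases hc : d (d u) = 0
  · -- the degenerate case
    have h6 : (6 : F) ≠ 0 := by
      intro h
      have : ((6 : ℕ) : F) = 0 := by exact_mod_cast h
      rw [CharP.cast_eq_zero_iff F p] at this
      have h2 := (Nat.Prime.dvd_mul hp.out).mp (show p ∣ 2 * 3 from this)
      rcases h2 with h2 | h2
      · have := Nat.le_of_dvd (by norm_num) h2; omega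
      · have := Nat.le_of_dvd (by norm_num) h2; omega
    set e : N := algebraMap F N (6 : F)⁻¹ with he
    have hde : d e = 0 := d.map_algebraMap _
    have he6 : (6 : N) * e = 1 := by
      rw [he, ← map_ofNat (algebraMap F N) 6, ← map_mul, mul_inv_cancel₀ h6, map_one]
    set A : N := e * (d u ^ (2 * g) * d v) with hA
    have hdA : d A = 0 := by
      rw [hA, Derivation.leibniz, Derivation.leibniz, Derivation.leibniz_pow, hde, hc, hv]
      simp
    refine ⟨A * u ^ 3, ?_⟩
    have h1 : d (A * u ^ 3) = A * (3 * u ^ 2 * d u) := by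
      rw [Derivation.leibniz, hdA, Derivation.leibniz_pow]
      simp only [smul_eq_mul, nsmul_eq_mul, Nat.cast_ofNat]
      ring
    have h2 : d (A * (3 * u ^ 2 * d u)) = A * (6 * u * d u ^ 2) := by
      have h3 : d (3 : N) = 0 := by
        have := d.map_natCast 3; exact_mod_cast this
      rw [Derivation.leibniz, hdA, Derivation.leibniz, Derivation.leibniz, Derivation.leibniz_pow,
        hc, h3]
      simp only [smul_eq_mul, nsmul_eq_mul, Nat.cast_ofNat]
      ring
    have h3 : d (A * (6 * u * d u ^ 2)) = A * (6 * d u ^ 3) := by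
      have h3 : d (6 : N) = 0 := by
        have := d.map_natCast 6; exact_mod_cast this
      rw [Derivation.leibniz, hdA, Derivation.leibniz, Derivation.leibniz, Derivation.leibniz_pow,
        hc, h3]
      simp only [smul_eq_mul, nsmul_eq_mul, Nat.cast_ofNat]
      ring
    rw [h1, h2, h3, hc, hA]
    have h4 : (d u ^ 2 - 2 * u * 0) ^ (g + 1) * (d u * d v - 0 * v) =
        d u ^ (2 * g) * d u ^ 3 * d v := by
      rw [mul_zero, sub_zero, zero_mul, sub_zero, ← pow_mul, ← pow_add]
      rw [show 2 * (g + 1) = 2 * g + 2 by ring]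
      ring
    rw [h4]
    linear_combination (d u ^ (2 * g) * d u ^ 3 * d v) * he6
  · set c : N := d (d u) with hcdef
    set k : N := d u ^ 2 - 2 * u * c with hk
    set b : N := d u * d v - c * v with hb
    have hdc : d c = 0 := hu
    have hd2 : d (2 : N) = 0 := by
      have := d.map_natCast 2; exact_mod_cast this
    have hdk : d k = 0 := by
      rw [hk, map_sub, Derivation.leibniz_pow, Derivation.leibniz, Derivation.leibniz, hdc, hd2,
        ← hcdef]
      simp only [smul_eq_mul, nsmul_eq_mul, Nat.cast_ofNat]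
      ring
    have hdb : d b = 0 := by
      rw [hb, map_sub, Derivation.leibniz, Derivation.leibniz, hdc, hv, ← hcdef]
      simp only [smul_eq_mul]
      ring
    set f : N[X] := (X ^ 2 - C k) ^ (2 * g + 3) * (C (d v) * X - C b) with hf
    have hcc : CC d f := cc_special d hdk hv hdb _
    have hev : eval (d u) f = 2 ^ (2 * g + 3) * c ^ (2 * g + 4) * (u ^ (2 * g + 3) * v) := by
      rw [hf, eval_mul, eval_pow, eval_sub, eval_sub, eval_pow, eval_mul, eval_X, eval_C, eval_C,
        eval_C]
      have e1 : d u ^ 2 - k = 2 * u * c := by rw [hk]; ring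
      have e2 : d v * d u - b = c * v := by rw [hb]; ring
      rw [e1, e2, mul_pow, mul_pow]
      ring
    have hcn : ∀ n : ℕ, d (c ^ n) = 0 := by
      intro n; rw [Derivation.leibniz_pow, hdc]; simp
    have h2n : ∀ n : ℕ, d ((2 : N) ^ n) = 0 := by
      intro n; rw [Derivation.leibniz_pow, hd2]; simp
    have hcst : d (2 ^ (2 * g + 3) * c ^ (2 * g + 4) : N) = 0 := by
      rw [Derivation.leibniz, hcn, h2n]; simp
    have hit := d_iter_eval d (s := d u) (c := c) rfl hdc (p - 1) hcc
    rw [hev, d_iter_const_mul d hcst] at hit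
    have hpg : p - 1 = 2 * g + 4 := by omega
    rw [top_derivative (p := p) (f := f)
      ((natDegree_special k (d v) b g).trans (by omega)), eval_C, hpg, hf, coeff_special] at hit
    have hc4 : c ^ (2 * g + 4) ≠ 0 := pow_ne_zero _ hc
    set D : N := (d : N → N)^[2 * g + 4] (u ^ (2 * g + 3) * v) with hD
    have hit2 : (2 : N) ^ (2 * g + 3) * D =
        ((2 * g + 4).factorial : N) * (-b * ((-k) ^ (g + 1) * ((2 * g + 3).choose (g + 2) : N))) := by
      apply mul_left_cancel₀ hc4
      linear_combination hit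
    -- the numerical factor
    have hfac : (((2 * g + 4).factorial : ℕ) : F) ≠ 0 := by
      intro h
      rw [CharP.cast_eq_zero_iff F p, hp.out.dvd_factorial] at h
      omega
    have hch : (((2 * g + 3).choose (g + 2) : ℕ) : F) ≠ 0 := by
      intro h
      rw [CharP.cast_eq_zero_iff F p] at h
      have h1 : (2 * g + 3).choose (g + 2) ∣ (2 * g + 3).factorial := by
        refine ⟨(g + 2).factorial * (g + 1).factorial, ?_⟩
        have := Nat.choose_mul_factorial_mul_factorial (n := 2 * g + 3) (k := g + 2) (by omega)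
        rw [show 2 * g + 3 - (g + 2) = g + 1 by omega] at this
        rw [← this]; ring
      have h2 := h.trans h1
      rw [hp.out.dvd_factorial] at h2
      omega
    set m : F := (((2 * g + 4).factorial : ℕ) : F) * (((2 * g + 3).choose (g + 2) : ℕ) : F) *
      (-1) ^ (g + 2) with hm
    have hm0 : m ≠ 0 := by
      rw [hm]
      exact mul_ne_zero (mul_ne_zero hfac hch) (pow_ne_zero _ (by norm_num))
    refine ⟨algebraMap F N (m⁻¹ * 2 ^ (2 * g + 3)) * (d : N → N)^[2 * g + 1] (u ^ (2 * g + 3) * v),
      ?_⟩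
    have h3 : ∀ x : N, d (d (d x)) = (d : N → N)^[3] x := fun x => rfl
    rw [h3, d_iter_const_mul d (d.map_algebraMap _), ← Function.iterate_add_apply,
      show 3 + (2 * g + 1) = 2 * g + 4 by ring, ← hD]
    have hmN : algebraMap F N m⁻¹ * algebraMap F N m = 1 := by
      rw [← map_mul, inv_mul_cancel₀ hm0, map_one]
    have hmN2 : algebraMap F N m =
        ((2 * g + 4).factorial : N) * ((2 * g + 3).choose (g + 2) : N) * (-1) ^ (g + 2) := by
      rw [hm]; simp
    have hpow : (-k) ^ (g + 1) = (-1) ^ (g + 1) * k ^ (g + 1) := by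
      rw [neg_pow]
    rw [map_mul, map_pow, map_ofNat]
    have hfin : (2 : N) ^ (2 * g + 3) * D = algebraMap F N m * (k ^ (g + 1) * b) := by
      rw [hit2, hmN2, hpow, pow_succ (-1 : N) (g + 1)]
      ring
    rw [mul_assoc, hfin, ← mul_assoc, hmN, one_mul]

end Pool.H67.ENG
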