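import Pool.Agent.H67.ENG.Wr
import Pool.Agent.H67.ENG.KI

set_option autoImplicit false

/-!
# Iterated brackets and the Engel condition modulo `J`
-/

namespace Pool.H67.ENG

variable {F : Type*} [Field F] {N : Type*} [CommRing N] [Algebra F N] (d : Derivation F N N)

/-- bracketing with `u` on the right, on the level of `N` -/
def R (u w : N) : N := d w * u - w * d u

/-- the square of the length of `u` -/
def kk (u : N) : N := d u ^ 2 - 2 * u * d (d u)

/-- the bilinear form -/
def BB (u w : N) : N := d u * d w - u * d (d w) - d (d u) * w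

lemma d_two : d (2 : N) = 0 := by
  have := d.map_natCast 2; exact_mod_cast this

lemma d_kk {u : N} (hu : d (d (d u)) = 0) : d (kk d u) = 0 := by
  rw [kk, map_sub, Derivation.leibniz_pow, Derivation.leibniz, Derivation.leibniz, hu, d_two]
  simp only [smul_eq_mul, nsmul_eq_mul, Nat.cast_ofNat]
  ring

lemma R_const {c : N} (hc : d c = 0) (u w : N) : R d u (c * w) = c * R d u w := by
  rw [R, R, Derivation.leibniz, hc]
  simp only [smul_eq_mul]; ring

lemma R_sq (u w : N) : R d u (R d u w) = kk d u * w - BB d u w * u := by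
  simp only [R, kk, BB, map_sub, Derivation.leibniz, smul_eq_mul]; ring

lemma R_cube {u w : N} (hu : d (d (d u)) = 0) (hw : d (d (d w)) = 0) :
    R d u (R d u (R d u w)) = kk d u * R d u w := by
  simp only [R, kk, map_sub, map_add, Derivation.leibniz, smul_eq_mul, hu, hw]
  ring

lemma d3_R {u w : N} (hu : d (d (d u)) = 0) (hw : d (d (d w)) = 0) :
    d (d (d (R d u w))) = 0 := by
  simp only [R, map_sub, map_add, Derivation.leibniz, smul_eq_mul, hu, hw, map_zero, mul_zero,
    add_zero]
  ring

lemma d_kk_pow {u : N} (hu : d (d (d u)) = 0) (j : ℕ) : d (kk d u ^ j) = 0 := by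
  rw [Derivation.leibniz_pow, d_kk d hu]; simp

lemma R_odd {u w : N} (hu : d (d (d u)) = 0) (hw : d (d (d w)) = 0) (j : ℕ) :
    (R d u)^[2 * j + 1] w = kk d u ^ j * R d u w := by
  induction j with
  | zero => simp
  | succ j ih =>
    rw [show 2 * (j + 1) + 1 = (2 * j + 1) + 1 + 1 by ring, Function.iterate_succ',
      Function.iterate_succ', Function.comp_apply, Function.comp_apply, ih,
      R_const d (d_kk_pow d hu j), R_const d (d_kk_pow d hu j), R_cube d hu hw]
    ring

lemma R_even {u w : N} (hu : d (d (d u)) = 0) (hw : d (d (d w)) = 0) (j : ℕ) :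
    (R d u)^[2 * j + 2] w = kk d u ^ j * (kk d u * w - BB d u w * u) := by
  rw [show 2 * j + 2 = (2 * j + 1) + 1 by ring, Function.iterate_succ', Function.comp_apply,
    R_odd d hu hw, R_const d (d_kk_pow d hu j), R_sq]

lemma val_iter (u w : K3 d) (n : ℕ) :
    val d ((fun z : K3 d => ⁅z, u⁆)^[n] w) = (R d (val d u))^[n] (val d w) := by
  induction n with
  | zero => rfl
  | succ n ih =>
    rw [Function.iterate_succ', Function.comp_apply, Function.iterate_succ', Function.comp_apply,
      ← ih]
    rfl

theorem engel_mem [IsDomain N] {p : ℕ} [hp : Fact p.Prime] [CharP F p] {g : ℕ}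
    (hg : p = 2 * g + 5) (t : F) (ht : (3 : F) * t = 1) (u w : K3 d) :
    (fun z : K3 d => ⁅z, u⁆)^[p - 1] w ∈ J d t ht := by
  have hu := val_d3 d u
  have hw := val_d3 d w
  have h1 : (fun z : K3 d => ⁅z, u⁆)^[p - 2] w ∈ J d t ht := by
    rw [mem_J, val_iter, show p - 2 = 2 * (g + 1) + 1 by omega, R_odd d hu hw]
    obtain ⟨z, hz⟩ := ki d (p := p) hg (u := val d u) (v := d (val d w)) hu hw
    refine ⟨z, ?_⟩
    rw [Derivation.leibniz, d_kk_pow d hu, smul_zero, add_zero, smul_eq_mul, Derivation.leibniz,
      d_kk_pow d hu, smul_zero, add_zero, smul_eq_mul]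
    have h2 : d (d (R d (val d u) (val d w))) =
        d (d (val d w)) * d (val d u) - d (val d w) * d (d (val d u)) := by
      simp only [R, map_sub, map_add, Derivation.leibniz, smul_eq_mul, hu, hw]
      ring
    rw [h2, hz, kk]
    ring
  have h2 : p - 1 = (p - 2) + 1 := by omega
  rw [h2, Function.iterate_succ', Function.comp_apply, ← lie_skew]
  exact (J d t ht).neg_mem ((J d t ht).lie_mem h1)

end Pool.H67.ENG
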