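import Pool.Agent.H67.ENG.Engel

set_option autoImplicit false

/-!
# The polynomial algebra and the Laplacians
-/

namespace Pool.H67.ENG

open MvPolynomial

variable (F : Type*) [Field F] (m : ℕ)

/-- polynomials in `3 m` variables `a_i, b_i, c_i` -/
abbrev NN : Type _ := MvPolynomial (Fin m × Fin 3) F

/-- the derivation `a_i ↦ b_i ↦ c_i ↦ 0` -/
noncomputable def DD : Derivation F (NN F m) (NN F m) :=
  mkDerivation F fun x => if x.2 = 0 then X (x.1, 1) else if x.2 = 1 then X (x.1, 2) else 0

variable {F m}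

@[simp] lemma DD_a (i : Fin m) : DD F m (X (i, 0)) = X (i, 1) := by simp [DD, mkDerivation_X]
@[simp] lemma DD_b (i : Fin m) : DD F m (X (i, 1)) = X (i, 2) := by simp [DD, mkDerivation_X]
@[simp] lemma DD_c (i : Fin m) : DD F m (X (i, 2)) = 0 := by simp [DD, mkDerivation_X]

lemma fin3_cases (j : Fin 3) : j = 0 ∨ j = 1 ∨ j = 2 := by omega

lemma pd_c (i : Fin m) (f : NN F m) :
    pderiv (i, 2) (DD F m f) = DD F m (pderiv (i, 2) f) + pderiv (i, 1) f := by
  have h : ⁅pderiv (R := F) (i, (2 : Fin 3)), DD F m⁆ = pderiv (i, 1) := by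
    apply derivation_ext
    rintro ⟨k, j⟩
    rw [Derivation.commutator_apply]
    rcases fin3_cases j with rfl | rfl | rfl <;>
      simp [pderiv_X, Pi.single_apply, Prod.ext_iff] <;> split_ifs <;> simp_all
  have := congrArg (fun D => D f) h
  simp only [Derivation.commutator_apply] at this
  rw [← this]; ring

lemma pd_b (i : Fin m) (f : NN F m) :
    pderiv (i, 1) (DD F m f) = DD F m (pderiv (i, 1) f) + pderiv (i, 0) f := by
  have h : ⁅pderiv (R := F) (i, (1 : Fin 3)), DD F m⁆ = pderiv (i, 0) := by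
    apply derivation_ext
    rintro ⟨k, j⟩
    rw [Derivation.commutator_apply]
    rcases fin3_cases j with rfl | rfl | rfl <;>
      simp [pderiv_X, Pi.single_apply, Prod.ext_iff] <;> split_ifs <;> simp_all
  have := congrArg (fun D => D f) h
  simp only [Derivation.commutator_apply] at this
  rw [← this]; ring

lemma pd_a (i : Fin m) (f : NN F m) :
    pderiv (i, 0) (DD F m f) = DD F m (pderiv (i, 0) f) := by
  have h : ⁅pderiv (R := F) (i, (0 : Fin 3)), DD F m⁆ = 0 := by
    apply derivation_ext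
    rintro ⟨k, j⟩
    rw [Derivation.commutator_apply]
    rcases fin3_cases j with rfl | rfl | rfl <;>
      simp [pderiv_X, Pi.single_apply, Prod.ext_iff] <;> split_ifs <;> simp_all
  have := congrArg (fun D => D f) h
  simp only [Derivation.commutator_apply, Derivation.coe_zero, Pi.zero_apply] at this
  rw [sub_eq_zero] at this
  exact this

/-- partial derivatives commute -/
lemma pd_comm (x y : Fin m × Fin 3) (f : NN F m) :
    pderiv x (pderiv y f) = pderiv y (pderiv x f) := by
  have h : ⁅pderiv (R := F) x, pderiv (R := F) y⁆ = 0 := by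
    apply derivation_ext
    intro z
    rw [Derivation.commutator_apply]
    simp [pderiv_X, Pi.single_apply]
    split_ifs <;> simp
  have := congrArg (fun D => D f) h
  simp only [Derivation.commutator_apply, Derivation.coe_zero, Pi.zero_apply] at this
  rw [sub_eq_zero] at this
  exact this

/-- the Laplacian in the variables of index `i` -/
noncomputable def Lap (i : Fin m) (f : NN F m) : NN F m :=
  pderiv (i, 1) (pderiv (i, 1) f) - 2 * pderiv (i, 0) (pderiv (i, 2) f)

/-- the Euler operator in the variables of index `i` -/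
noncomputable def Eul (i : Fin m) (f : NN F m) : NN F m :=
  X (i, 0) * pderiv (i, 0) f + X (i, 1) * pderiv (i, 1) f + X (i, 2) * pderiv (i, 2) f

/-- the quadratic form -/
noncomputable def Q (i : Fin m) : NN F m := X (i, 1) ^ 2 - 2 * X (i, 0) * X (i, 2)

lemma kk_X (i : Fin m) : kk (DD F m) (X (i, 0)) = Q i := by
  rw [kk, DD_a, DD_b, Q]

lemma Lap_D (i : Fin m) (f : NN F m) : Lap i (DD F m f) = DD F m (Lap i f) := by
  rw [Lap, Lap, pd_c, pd_b, map_add, map_add, pd_b, pd_a, map_sub, Derivation.leibniz, d_two,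
    pd_comm (i, 0) (i, 1)]
  simp only [smul_eq_mul]
  ring

lemma Lap_add (i : Fin m) (f g : NN F m) : Lap i (f + g) = Lap i f + Lap i g := by
  simp only [Lap, map_add]; ring

lemma Lap_zero (i : Fin m) : Lap i (0 : NN F m) = 0 := by simp [Lap]

lemma Lap_C_mul (i : Fin m) (r : F) (f : NN F m) : Lap i (C r * f) = C r * Lap i f := by
  simp only [Lap, pderiv_C_mul]; ring

lemma pd_X_same (i : Fin m) (j : Fin 3) : pderiv (i, j) (X (i, j) : NN F m) = 1 := by
  simp

lemma pd_X_ne (i : Fin m) (j k : Fin 3) (h : j ≠ k) : pderiv (i, j) (X (i, k) : NN F m) = 0 := by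
  rw [pderiv_X_of_ne]; intro h2; exact h (congrArg Prod.snd h2).symm

lemma pd_two (x : Fin m × Fin 3) : pderiv x (2 : NN F m) = 0 := by
  have := (pderiv (R := F) x).map_natCast 2; exact_mod_cast this

lemma Lap_Q_mul (i : Fin m) (f : NN F m) :
    Lap i (Q i * f) = Q i * Lap i f + 4 * Eul i f + 6 * f := by
  have e01 := pd_X_ne (F := F) i 0 1 (by decide)
  have e02 := pd_X_ne (F := F) i 0 2 (by decide)
  have e10 := pd_X_ne (F := F) i 1 0 (by decide)
  have e12 := pd_X_ne (F := F) i 1 2 (by decide)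
  have e20 := pd_X_ne (F := F) i 2 0 (by decide)
  have e21 := pd_X_ne (F := F) i 2 1 (by decide)
  have e0 := pd_X_same (F := F) i 0
  have e1 := pd_X_same (F := F) i 1
  have e2 := pd_X_same (F := F) i 2
  simp only [Lap, Eul, Q, Derivation.leibniz, map_sub, map_add, Derivation.leibniz_pow, pd_two,
    smul_eq_mul, nsmul_eq_mul, e01, e02, e10, e12, e20, e21, e0, e1, e2, Nat.cast_ofNat,
    mul_zero, add_zero, mul_one, zero_add, pow_one, Nat.add_one_sub_one, map_zero]
  ring

lemma Eul_Q_mul (i : Fin m) (f : NN F m) : Eul i (Q i * f) = Q i * Eul i f + 2 * (Q i * f) := by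
  have e01 := pd_X_ne (F := F) i 0 1 (by decide)
  have e02 := pd_X_ne (F := F) i 0 2 (by decide)
  have e10 := pd_X_ne (F := F) i 1 0 (by decide)
  have e12 := pd_X_ne (F := F) i 1 2 (by decide)
  have e20 := pd_X_ne (F := F) i 2 0 (by decide)
  have e21 := pd_X_ne (F := F) i 2 1 (by decide)
  have e0 := pd_X_same (F := F) i 0
  have e1 := pd_X_same (F := F) i 1
  have e2 := pd_X_same (F := F) i 2
  simp only [Eul, Q, Derivation.leibniz, map_sub, Derivation.leibniz_pow, pd_two,
    smul_eq_mul, nsmul_eq_mul, e01, e02, e10, e12, e20, e21, e0, e1, e2, Nat.cast_ofNat,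
    mul_zero, add_zero, mul_one, zero_add, pow_one, Nat.add_one_sub_one]
  ring

lemma Eul_Q_pow_mul (i : Fin m) {q : ℕ} {f : NN F m} (hf : Eul i f = (q : NN F m) * f) (j : ℕ) :
    Eul i (Q i ^ j * f) = ((2 * j + q : ℕ) : NN F m) * (Q i ^ j * f) := by
  induction j with
  | zero => simp [hf]
  | succ j ih =>
    rw [pow_succ', mul_assoc, Eul_Q_mul, ih]
    push_cast; ring

lemma Lap_Q_pow_mul (i : Fin m) {q : ℕ} {f : NN F m} (hf : Eul i f = (q : NN F m) * f) (hL : Lap i f = 0)
    (j : ℕ) : Lap i (Q i ^ (j + 1) * f) =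
      (((j + 1) * (4 * j + 6 + 4 * q) : ℕ) : NN F m) * (Q i ^ j * f) := by
  induction j with
  | zero =>
    rw [zero_add, pow_one, Lap_Q_mul, hL, hf]
    push_cast; ring
  | succ j ih =>
    rw [pow_succ', mul_assoc, Lap_Q_mul, ih, Eul_Q_pow_mul i hf]
    push_cast; ring

end Pool.H67.ENG
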