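import Pool.Agent.H67.ENG.Lap

set_option autoImplicit false

/-!
# The main computation and the lower bound
-/

namespace Pool.H67.ENG

open MvPolynomial

variable {F : Type*} [Field F] {m : ℕ}

/-- no variable of index `i` occurs -/
def FreeOf (i : Fin m) (f : NN F m) : Prop := ∀ j : Fin 3, pderiv (i, j) f = 0

lemma free_D {i : Fin m} {f : NN F m} (hf : FreeOf i f) : FreeOf i (DD F m f) := by
  intro j
  rcases fin3_cases j with rfl | rfl | rfl
  · rw [pd_a, hf, map_zero]
  · rw [pd_b, hf, hf, map_zero, add_zero]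
  · rw [pd_c, hf, hf, map_zero, add_zero]

lemma free_mul {i : Fin m} {f g : NN F m} (hf : FreeOf i f) (hg : FreeOf i g) :
    FreeOf i (f * g) := by
  intro j; rw [Derivation.leibniz, hf, hg]; simp

lemma free_sub {i : Fin m} {f g : NN F m} (hf : FreeOf i f) (hg : FreeOf i g) :
    FreeOf i (f - g) := by
  intro j; rw [map_sub, hf, hg, sub_zero]

lemma free_X {i k : Fin m} (h : k ≠ i) (j : Fin 3) : FreeOf i (X (k, j) : NN F m) := by
  intro l
  rw [pderiv_X_of_ne]
  intro h2
  exact h (congrArg Prod.fst h2)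

lemma free_R {i : Fin m} {u w : NN F m} (hu : FreeOf i u) (hw : FreeOf i w) :
    FreeOf i (R (DD F m) u w) :=
  free_sub (free_mul (free_D hw) hu) (free_mul hw (free_D hu))

lemma free_R_iter {i : Fin m} {u w : NN F m} (hu : FreeOf i u) (hw : FreeOf i w) (n : ℕ) :
    FreeOf i ((R (DD F m) u)^[n] w) := by
  induction n with
  | zero => exact hw
  | succ n ih => rw [Function.iterate_succ', Function.comp_apply]; exact free_R hu ih

lemma Lap_free {i : Fin m} {f : NN F m} (hf : FreeOf i f) : Lap i f = 0 := by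
  rw [Lap, hf, hf]; simp

lemma Eul_free {i : Fin m} {f : NN F m} (hf : FreeOf i f) : Eul i f = ((0 : ℕ) : NN F m) * f := by
  rw [Eul, hf, hf, hf]; simp

lemma Lap_nat_mul (i : Fin m) (n : ℕ) (f : NN F m) :
    Lap i ((n : NN F m) * f) = (n : NN F m) * Lap i f := by
  have h : (n : NN F m) = C (n : F) := by simp
  rw [h, Lap_C_mul]

lemma Lap_iter_C_mul (i : Fin m) (r : F) (n : ℕ) (f : NN F m) :
    (Lap i)^[n] (C r * f) = C r * (Lap i)^[n] f := by
  induction n with
  | zero => rfl
  | succ n ih =>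
    rw [Function.iterate_succ', Function.comp_apply, Function.comp_apply, ih, Lap_C_mul]

lemma Lap_iter_add (i : Fin m) (n : ℕ) (f g : NN F m) :
    (Lap i)^[n] (f + g) = (Lap i)^[n] f + (Lap i)^[n] g := by
  induction n with
  | zero => rfl
  | succ n ih =>
    rw [Function.iterate_succ', Function.comp_apply, Function.comp_apply, Function.comp_apply, ih,
      Lap_add]

lemma Lap_iter_D (i : Fin m) (n : ℕ) (f : NN F m) :
    (Lap i)^[n] (DD F m f) = DD F m ((Lap i)^[n] f) := by
  induction n with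
  | zero => rfl
  | succ n ih =>
    rw [Function.iterate_succ', Function.comp_apply, Function.comp_apply, ih, Lap_D]

lemma Lap_iter_Q (i : Fin m) {q : ℕ} {f : NN F m} (hf : Eul i f = (q : NN F m) * f)
    (hL : Lap i f = 0) (n : ℕ) :
    (Lap i)^[n] (Q i ^ n * f) =
      C (∏ j ∈ Finset.range n, (((j + 1) * (4 * j + 6 + 4 * q) : ℕ) : F)) * f := by
  induction n with
  | zero => simp
  | succ n ih =>
    rw [Function.iterate_succ, Function.comp_apply, Lap_Q_pow_mul i hf hL,
      show ((((n + 1) * (4 * n + 6 + 4 * q) : ℕ) : NN F m)) =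
        C (((n + 1) * (4 * n + 6 + 4 * q) : ℕ) : F) from
          (map_natCast (C : F →+* NN F m) _).symm, Lap_iter_C_mul, ih,
      Finset.prod_range_succ, C_mul]
    ring

/-- the harmonic part -/
noncomputable def Hp (t : F) (i : Fin m) (w : NN F m) : NN F m :=
  (X (i, 0) * X (i, 2) + C t * Q i) * w - X (i, 0) * X (i, 1) * DD F m w +
    X (i, 0) ^ 2 * DD F m (DD F m w)

lemma pd_C' (x : Fin m × Fin 3) (t : F) : pderiv x (C t : NN F m) = 0 := by simp

lemma Hp_Eul {t : F} {i : Fin m} {w : NN F m} (hw : FreeOf i w) :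
    Eul i (Hp t i w) = ((2 : ℕ) : NN F m) * Hp t i w := by
  have e01 := pd_X_ne (F := F) i 0 1 (by decide)
  have e02 := pd_X_ne (F := F) i 0 2 (by decide)
  have e10 := pd_X_ne (F := F) i 1 0 (by decide)
  have e12 := pd_X_ne (F := F) i 1 2 (by decide)
  have e20 := pd_X_ne (F := F) i 2 0 (by decide)
  have e21 := pd_X_ne (F := F) i 2 1 (by decide)
  have e0 := pd_X_same (F := F) i 0
  have e1 := pd_X_same (F := F) i 1
  have e2 := pd_X_same (F := F) i 2
  have f0 := hw 0
  have f1 := hw 1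
  have f2 := hw 2
  have g0 := free_D hw 0
  have g1 := free_D hw 1
  have g2 := free_D hw 2
  have h0 := free_D (free_D hw) 0
  have h1 := free_D (free_D hw) 1
  have h2 := free_D (free_D hw) 2
  simp only [Eul, Hp, Q, Derivation.leibniz, map_sub, map_add, Derivation.leibniz_pow, pd_two,
    pd_C', smul_eq_mul, nsmul_eq_mul, e01, e02, e10, e12, e20, e21, e0, e1, e2, f0, f1, f2, g0, g1,
    g2, h0, h1, h2, Nat.cast_ofNat, mul_zero, add_zero, mul_one, zero_add, pow_one,
    Nat.add_one_sub_one, map_zero]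
  ring

lemma Hp_Lap {t : F} (ht : (3 : F) * t = 1) {i : Fin m} {w : NN F m} (hw : FreeOf i w) :
    Lap i (Hp t i w) = 0 := by
  have e01 := pd_X_ne (F := F) i 0 1 (by decide)
  have e02 := pd_X_ne (F := F) i 0 2 (by decide)
  have e10 := pd_X_ne (F := F) i 1 0 (by decide)
  have e12 := pd_X_ne (F := F) i 1 2 (by decide)
  have e20 := pd_X_ne (F := F) i 2 0 (by decide)
  have e21 := pd_X_ne (F := F) i 2 1 (by decide)
  have e0 := pd_X_same (F := F) i 0
  have e1 := pd_X_same (F := F) i 1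
  have e2 := pd_X_same (F := F) i 2
  have f0 := hw 0
  have f1 := hw 1
  have f2 := hw 2
  have g0 := free_D hw 0
  have g1 := free_D hw 1
  have g2 := free_D hw 2
  have h0 := free_D (free_D hw) 0
  have h1 := free_D (free_D hw) 1
  have h2 := free_D (free_D hw) 2
  have hT : (3 : NN F m) * C t = 1 := by
    have := congrArg (C : F →+* NN F m) ht
    rwa [map_mul, map_ofNat, map_one] at this
  simp only [Lap, Hp, Q, Derivation.leibniz, map_sub, map_add, Derivation.leibniz_pow, pd_two,
    pd_C', smul_eq_mul, nsmul_eq_mul, e01, e02, e10, e12, e20, e21, e0, e1, e2, f0, f1, f2, g0, g1,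
    g2, h0, h1, h2, Nat.cast_ofNat, mul_zero, add_zero, mul_one, zero_add, pow_one,
    Nat.add_one_sub_one, map_zero, (pderiv (R := F) (i, (1 : Fin 3))).map_one_eq_zero,
    (pderiv (R := F) (i, (0 : Fin 3))).map_one_eq_zero]
  linear_combination (2 * w) * hT

/-- the factor -/
noncomputable def lam (t : F) (g : ℕ) : F :=
  (1 - t) * ∏ j ∈ Finset.range (g + 1), (((j + 1) * (4 * j + 6 + 4 * 0) : ℕ) : F)

lemma block {t : F} (ht : (3 : F) * t = 1) {i : Fin m} {w : NN F m} (hw : FreeOf i w)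
    (hw3 : DD F m (DD F m (DD F m w)) = 0) (g : ℕ) :
    (Lap i)^[g + 1] ((R (DD F m) (X (i, 0)))^[2 * g + 2] w) = C (lam t g) * w := by
  have hu : DD F m (DD F m (DD F m (X (i, 0)))) = 0 := by simp
  rw [R_even (DD F m) hu hw3, kk_X]
  have h1 : Q i ^ g * (Q i * w - BB (DD F m) (X (i, 0)) w * X (i, 0)) =
      C (1 - t) * (Q i ^ (g + 1) * w) + Q i ^ g * Hp t i w := by
    rw [BB, DD_a, DD_b, Hp, map_sub, map_one, pow_succ]; ring
  rw [h1, Lap_iter_add, Lap_iter_C_mul, Lap_iter_Q i (Eul_free hw) (Lap_free hw)]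
  have h2 : (Lap i)^[g + 1] (Q i ^ g * Hp t i w) = 0 := by
    rw [Function.iterate_succ', Function.comp_apply, Lap_iter_Q i (Hp_Eul hw) (Hp_Lap ht hw),
      Lap_C_mul, Hp_Lap ht hw, mul_zero]
  rw [h2, add_zero, lam, C_mul, mul_assoc]

lemma lam_ne {p : ℕ} [hp : Fact p.Prime] [CharP F p] {g : ℕ} (hg : p = 2 * g + 5) {t : F}
    (ht : (3 : F) * t = 1) : lam t g ≠ 0 := by
  have hnat : ∀ n : ℕ, 0 < n → n < p → (n : F) ≠ 0 := by
    intro n h0 h1 h
    rw [CharP.cast_eq_zero_iff F p] at h
    exact absurd (Nat.le_of_dvd h0 h) (by omega)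
  have h2 : (2 : F) ≠ 0 := by have := hnat 2 (by norm_num) (by omega); exact_mod_cast this
  rw [lam]
  refine mul_ne_zero ?_ ?_
  · intro h
    apply h2
    linear_combination (3 : F) * h + ht
  · rw [Finset.prod_ne_zero_iff]
    intro j hj
    rw [Finset.mem_range] at hj
    have e : (((j + 1) * (4 * j + 6 + 4 * 0) : ℕ) : F) = ((j + 1 : ℕ) : F) * (2 * ((2 * j + 3 : ℕ) : F)) := by
      push_cast; ring
    rw [e]
    exact mul_ne_zero (hnat _ (by omega) (by omega)) (mul_ne_zero h2 (hnat _ (by omega) (by omega)))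

lemma cc_DD (f : NN F m) : constantCoeff (DD F m f) = 0 := by
  induction f using MvPolynomial.induction_on with
  | C a => simp
  | add f g hf hg => rw [map_add, map_add, hf, hg, add_zero]
  | mul_X f n hf =>
    rw [Derivation.leibniz, map_add, smul_eq_mul, smul_eq_mul, map_mul, map_mul, hf, mul_zero,
      add_zero]
    obtain ⟨k, j⟩ := n
    rcases fin3_cases j with rfl | rfl | rfl <;> simp

lemma base (i : Fin m) (c : NN F m) :
    DD F m (DD F m (X (i, 0))) ≠ DD F m (DD F m (DD F m c)) := by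
  intro h
  rw [DD_a, DD_b] at h
  have h1 := congrArg (fun f => constantCoeff (pderiv (i, (2 : Fin 3)) f)) h
  simp only [pd_X_same, pd_c, pd_b, pd_a, map_add, cc_DD, add_zero, map_one, zero_add] at h1
  exact one_ne_zero h1

end Pool.H67.ENG
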