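import Mathlib

set_option autoImplicit false

/-!
# Wronskian Lie algebras

For a derivation `d` of a commutative algebra `N` the bracket `d x * y - x * d y` makes `N` a Lie
algebra. The elements with vanishing third derivative form a subalgebra, with the ideal of the
elements whose second derivative is a third derivative.
-/

namespace Pool.H67.ENG

variable {F : Type*} [CommRing F] {N : Type*} [CommRing N] [Algebra F N]

/-- `N` with the Wronskian bracket of the derivation `d`. -/
def WL (_d : Derivation F N N) : Type _ := N

variable (d : Derivation F N N)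

instance : AddCommGroup (WL d) := inferInstanceAs (AddCommGroup N)

instance : Module F (WL d) := inferInstanceAs (Module F N)

/-- the element of `WL d` given by an element of `N` -/
def mk (x : N) : WL d := x

/-- the element of `N` given by an element of `WL d` -/
def out (x : WL d) : N := x

@[simp] lemma out_mk (x : N) : out d (mk d x) = x := rfl
@[simp] lemma mk_out (x : WL d) : mk d (out d x) = x := rfl
@[simp] lemma out_add (x y : WL d) : out d (x + y) = out d x + out d y := rfl
@[simp] lemma out_zero : out d 0 = 0 := rfl
@[simp] lemma out_smul (r : F) (x : WL d) : out d (r • x) = r • out d x := rfl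

lemma out_inj {x y : WL d} (h : out d x = out d y) : x = y := h

instance : Bracket (WL d) (WL d) :=
  ⟨fun x y => mk d (d (out d x) * out d y - out d x * d (out d y))⟩

@[simp] lemma out_lie (x y : WL d) :
    out d ⁅x, y⁆ = d (out d x) * out d y - out d x * d (out d y) := rfl

instance : LieRing (WL d) where
  add_lie x y z := by
    apply out_inj; simp only [out_lie, out_add, map_add]; ring
  lie_add x y z := by
    apply out_inj; simp only [out_lie, out_add, map_add]; ring
  lie_self x := by
    apply out_inj; simp only [out_lie, out_zero]; ring
  leibniz_lie x y z := by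
    apply out_inj
    simp only [out_lie, out_add, map_sub, Derivation.leibniz, smul_eq_mul]; ring

instance : LieAlgebra F (WL d) where
  lie_smul r x y := by
    apply out_inj
    simp only [out_lie, out_smul, Derivation.map_smul, smul_sub, mul_smul_comm]

/-- the elements with vanishing third derivative -/
def K3 : LieSubalgebra F (WL d) where
  carrier := {x | d (d (d (out d x))) = 0}
  add_mem' := by
    intro x y hx hy
    change d (d (d (out d x))) = 0 at hx
    change d (d (d (out d y))) = 0 at hy
    change d (d (d (out d (x + y)))) = 0
    simp only [out_add, map_add, hx, hy, add_zero]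
  zero_mem' := by simp
  smul_mem' := by
    intro r x hx
    change d (d (d (out d x))) = 0 at hx
    change d (d (d (out d (r • x)))) = 0
    simp only [out_smul, Derivation.map_smul, hx, smul_zero]
  lie_mem' := by
    intro x y hx hy
    change d (d (d (out d x))) = 0 at hx
    change d (d (d (out d y))) = 0 at hy
    change d (d (d (out d ⁅x, y⁆))) = 0
    simp only [out_lie, map_sub, map_add, Derivation.leibniz, smul_eq_mul, hx, hy, map_zero,
      mul_zero]
    ring

lemma mem_K3 (x : WL d) : x ∈ K3 d ↔ d (d (d (out d x))) = 0 := Iff.rfl

/-- value of an element of `K3 d` -/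
def val (x : K3 d) : N := out d (x : WL d)

lemma val_d3 (x : K3 d) : d (d (d (val d x))) = 0 := x.2

@[simp] lemma val_add (x y : K3 d) : val d (x + y) = val d x + val d y := rfl
@[simp] lemma val_zero : val d 0 = 0 := rfl
@[simp] lemma val_smul (r : F) (x : K3 d) : val d (r • x) = r • val d x := rfl
@[simp] lemma val_lie (x y : K3 d) :
    val d ⁅x, y⁆ = d (val d x) * val d y - val d x * d (val d y) := rfl

lemma val_lie_d2 (x y : K3 d) :
    d (d (val d ⁅x, y⁆)) = d (d (val d x)) * d (val d y) - d (val d x) * d (d (val d y)) := by
  have hx := val_d3 d x
  have hy := val_d3 d y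
  simp only [val_lie, map_sub, map_add, Derivation.leibniz, smul_eq_mul, hx, hy]
  ring

/-- the ideal of `K3 d` of the elements whose second derivative is a third derivative -/
def J (t : F) (ht : (3 : F) * t = 1) : LieIdeal F (K3 d) where
  carrier := {x | ∃ c : N, d (d (val d x)) = d (d (d c))}
  add_mem' := by
    rintro x y ⟨a, ha⟩ ⟨b, hb⟩
    exact ⟨a + b, by simp only [val_add, map_add, ha, hb]⟩
  zero_mem' := ⟨0, by simp⟩
  smul_mem' := by
    rintro r x ⟨a, ha⟩
    exact ⟨r • a, by simp only [val_smul, Derivation.map_smul, ha]⟩
  lie_mem := by
    rintro y x ⟨c, hc⟩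
    have hx := val_d3 d x
    have hy := val_d3 d y
    have hc4 : d (d (d (d c))) = 0 := by rw [← hc]; exact hx
    have hT : (3 : N) * algebraMap F N t = 1 := by
      have := congrArg (algebraMap F N) ht
      rwa [map_mul, map_ofNat, map_one] at this
    have hdT : d (algebraMap F N t) = 0 := d.map_algebraMap t
    refine ⟨-(d c * val d y - c * d (val d y) - algebraMap F N t * (val d x * val d y)), ?_⟩
    rw [val_lie_d2]
    simp only [map_neg, map_sub, Derivation.leibniz, smul_eq_mul, map_add,
      hy, hc4, hc, hdT, mul_zero, add_zero, map_zero]
    linear_combination (-(d (d (d c)) * d (val d y) + d (val d x) * d (d (val d y)))) * hT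

lemma mem_J (t : F) (ht : (3 : F) * t = 1) (x : K3 d) :
    x ∈ J d t ht ↔ ∃ c : N, d (d (val d x)) = d (d (d c)) := Iff.rfl

end Pool.H67.ENG
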